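import Pool.Agent.HCV.Q5.Top

set_option autoImplicit false

namespace Pool.Agent.Results.MP_34c74f_co.FiveCopies

/-- Every plane convex body is covered by five homothetic copies of ratio `29/45`. -/
theorem result : (∀ C : Set (EuclideanSpace ℝ (Fin 2)), HCV.IsBody C → HCV.CoveredBy 5 (29 / 45) C) ∧
    HCV.hHat 5 ≤ 29 / 45 := by
  have h := HCV.Q5.final
  push_cast at h
  exact h

end Pool.Agent.Results.MP_34c74f_co.FiveCopies
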