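import Pool.Agent.HPL.Fin

/-!
# A lower bound for the worst-case covering ratio with nine homothetic copies
-/

set_option autoImplicit false

namespace Pool.Agent.Results.MP_34c74f_co.PentagonNine

open HPL

theorem _root_.Pool.Agent.Results.MP_34c74f_co.PentagonNine.result : (209 / 500 : ℝ) ≤ hHat 9 :=
  main refuted

end Pool.Agent.Results.MP_34c74f_co.PentagonNine
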