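import Pool.Agent.HCV.Q6.Top

set_option autoImplicit false

namespace Pool.Agent.Results.MP_34c74f_co.SixCopies

/-- Every plane convex body is covered by six homothetic copies of ratio `59/100`. -/
theorem result : (∀ C : Set (EuclideanSpace ℝ (Fin 2)), HCV.IsBody C → HCV.CoveredBy 6 (59 / 100) C) ∧
    HCV.hHat 6 ≤ 59 / 100 := by
  have h := HCV.Q6.final
  push_cast at h
  exact h

end Pool.Agent.Results.MP_34c74f_co.SixCopies
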